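import Pool.Agent.U6.VE.Stm

/-!
# Project VE, package K1 (helper429): the linear case
-/

set_option autoImplicit false

namespace Pool.Agent.U429.VE

open Pool.Agent.U6.VE

/-- at most three integers `m` satisfy `|c - (m + x_m)| < 1` -/
theorem three (x : ℕ → ℝ) (hx : ∀ n, x n ∈ Set.Icc (0 : ℝ) 1) (c : ℝ) (A : Finset ℕ)
    (hA : ∀ m ∈ A, |c - ((m : ℝ) + x m)| < 1) : A.card ≤ 3 := by
  have h1 : A.image (fun m : ℕ => (m : ℤ)) ⊆ Finset.Icc (⌊c⌋ - 1) (⌊c⌋ + 1) := by
    intro z hz
    obtain ⟨m, hm, rfl⟩ := Finset.mem_image.1 hz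
    have h2 := abs_lt.1 (hA m hm)
    obtain ⟨h3, h4⟩ := hx m
    have h5 : ((m : ℤ) : ℝ) = (m : ℝ) := by push_cast; rfl
    rw [Finset.mem_Icc]
    have h6 := Int.floor_le c
    have h7 := Int.lt_floor_add_one c
    constructor
    · have : ((⌊c⌋ - 2 : ℤ) : ℝ) < ((m : ℤ) : ℝ) := by
        rw [h5]
        push_cast
        linarith
      have := Int.cast_lt.1 this
      omega
    · have : ((m : ℤ) : ℝ) < ((⌊c⌋ + 2 : ℤ) : ℝ) := by
        rw [h5]
        push_cast
        linarith
      have := Int.cast_lt.1 this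
      omega
  have h2 := Finset.card_le_card h1
  rw [Finset.card_image_of_injective _ Nat.cast_injective, Int.card_Icc] at h2
  have h3 : (⌊c⌋ + 1 + 1 - (⌊c⌋ - 1)).toNat = 3 := by
    have : ⌊c⌋ + 1 + 1 - (⌊c⌋ - 1) = 3 := by ring
    rw [this]
    rfl
  omega

theorem t_K1 : T_K1 := by
  classical
  intro s x hs hx N
  obtain ⟨r, rfl⟩ : ∃ r, s = r + 1 := ⟨s - 1, by omega⟩
  have hmain := Finset.card_le_mul_card_image_of_maps_to
    (s := Sol (r + 1) 1 N x)
    (t := (Fintype.piFinset fun _ : Fin (r + 1) => Finset.Icc 1 N) ×ˢ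
      (Fintype.piFinset fun _ : Fin r => Finset.Icc 1 N))
    (f := fun p => (p.1, fun i : Fin r => p.2 i.castSucc)) (n := 3)
    (by
      intro p hp
      unfold Sol at hp
      simp only [Finset.mem_filter, Finset.mem_product, Fintype.mem_piFinset] at hp
      simp only [Finset.mem_product, Fintype.mem_piFinset]
      exact ⟨hp.1.1, fun i => hp.1.2 i.castSucc⟩)
    (by
      rintro ⟨q, q'⟩ -
      set T := (Sol (r + 1) 1 N x).filter fun p => (p.1, fun i : Fin r => p.2 i.castSucc) = (q, q')
        with hT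
      have hinj : Set.InjOn (fun p : (Fin (r + 1) → ℕ) × (Fin (r + 1) → ℕ) => p.2 (Fin.last r)) T := by
        intro p hp p' hp' hpp
        rw [hT, Finset.mem_coe, Finset.mem_filter] at hp hp'
        have e1 := hp.2
        have e2 := hp'.2
        rw [Prod.mk.injEq] at e1 e2
        refine Prod.ext (e1.1.trans e2.1.symm) ?_
        funext i
        refine Fin.lastCases ?_ (fun j => ?_) i
        · exact hpp
        · exact (congrFun e1.2 j).trans (congrFun e2.2 j).symm
      rw [← Finset.card_image_of_injOn hinj]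
      refine three x hx (∑ i, ((q i : ℝ) + x (q i)) - ∑ i : Fin r, ((q' i : ℝ) + x (q' i))) _ ?_
      intro m hm
      obtain ⟨p, hp, rfl⟩ := Finset.mem_image.1 hm
      rw [hT, Finset.mem_filter, Prod.mk.injEq] at hp
      obtain ⟨hp1, e1, e2⟩ := hp
      unfold Sol at hp1
      rw [Finset.mem_filter] at hp1
      have h := hp1.2 0
      simp only [Fin.val_zero, zero_add, pow_one] at h
      rw [Fin.sum_univ_castSucc (fun i => ((p.2 i : ℝ) + x (p.2 i)))] at h
      have e3 : ∑ i : Fin r, ((p.2 i.castSucc : ℝ) + x (p.2 i.castSucc)) =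
          ∑ i : Fin r, ((q' i : ℝ) + x (q' i)) := by
        refine Finset.sum_congr rfl fun i _ => ?_
        have h9 : p.2 i.castSucc = q' i := congrFun e2 i
        rw [h9]
      rw [e1, e3] at h
      rw [sub_sub]
      exact h)
  refine hmain.trans (le_of_eq ?_)
  rw [Finset.card_product, Fintype.card_piFinset, Fintype.card_piFinset]
  simp only [Nat.card_Icc, Nat.add_sub_cancel, Finset.prod_const, Finset.card_univ,
    Fintype.card_fin]
  rw [← pow_add]
  congr 2
  omega

end Pool.Agent.U429.VE
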